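import Pool.Agent.H529R3.Gap.Alt
import Pool.Agent.H622R2.Exp.E0

/-!
# `NEXP = coNEXP` without a collapse for the sparse sets in `NP`
-/

set_option autoImplicit false

namespace Pool.Agent.TH93.NX

open Pool.Agent.NPC Pool.Agent.H620R2.Gauge Pool.Agent.H622R2.Exp Filter

/-- the padded test language -/
def spr (A : Oracle) : Set (List Bool) := {y | ∃ x, y = padq q4 x ∧ y ∈ hitLang A}

/-- the test whether a string is padded -/
def chk (y : List Bool) : Prop :=
  (((unpair y).2.all (fun b => b) = true ∧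
    (unpair y).2.length = 2 ^ q4.eval (unpair y).1.length) ∧
    pairBits (unpair y).1 (unpair y).2 = y)

noncomputable instance : DecidablePred chk := fun y => by unfold chk; infer_instance

theorem chk_iff (y : List Bool) : chk y ↔ ∃ x, y = padq q4 x := by
  unfold chk
  constructor
  · rintro ⟨⟨h1, h2⟩, h3⟩
    refine ⟨(unpair y).1, ?_⟩
    unfold padq
    rw [← List.eq_replicate_iff.2 ⟨h2, by simpa using h1⟩, h3]
  · rintro ⟨x, rfl⟩
    unfold padq
    rw [unpair_pairBits]
    refine ⟨⟨?_, List.length_replicate⟩, rfl⟩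
    rw [List.all_eq_true]
    intro b hb
    exact (List.mem_replicate.1 hb).2

theorem poly_chk : Poly (fun z : List Bool => decide (chk z)) := by
  have hx : Poly (fun z : List Bool => (unpair z).1) := Poly.fst poly_unpair
  have ht : Poly (fun z : List Bool => (unpair z).2) := Poly.snd poly_unpair
  have h1 : Poly (fun z : List Bool => decide ((unpair z).2.all (fun b => b) = true)) :=
    Poly.decide_bool (Poly.all (p := fun _ b => b) ht (Poly.snd Poly.id))
  have h2 : UPoly (fun z : List Bool => q4.eval (unpair z).1.length) := (UPoly.length hx).eval q4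
  have h3 : Poly (fun z : List Bool => List.replicate (q4.eval (unpair z).1.length) false) :=
    (NPC.Poly.map (F := fun _ _ => false) h2 (NPC.Poly.const false)).congr fun a => by simp
  have h4 : Poly (fun z : List Bool => 2 ^ q4.eval (unpair z).1.length) :=
    (Poly.valBits (Poly.append h3 (NPC.Poly.const [true]))).congr fun a => by
      rw [valB_replicate_false]
      simp
  have h5 : Poly (fun z : List Bool =>
      decide ((unpair z).2.length = 2 ^ q4.eval (unpair z).1.length)) :=
    Poly.decide_eq (Poly.length ht) h4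
  have h6 : Poly (fun z : List Bool => decide (pairBits (unpair z).1 (unpair z).2 = z)) :=
    Poly.decide_eq (H622R2.poly_pairBits hx ht) Poly.id
  exact (Poly.decide_and (Poly.decide_and h1 h5) h6).congr fun z => by
    unfold chk
    rfl

theorem spr_np (A : Oracle) : IsNP A (spr A) := by
  obtain ⟨V, p, hV, hL⟩ := hitLang_np A
  have hS := IsFP.seq (φ := fun p => p.1)
    (ψ := fun u : List Bool × List Bool × List Bool => if chk (unpair u.1).2 then u.2.1 else [])
    hV (IsFP.of_poly (A := A) Poly.id) (Poly.fst Poly.id)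
    (Poly.ite (poly_chk.comp (Poly.snd (poly_unpair.comp (Poly.fst Poly.id))))
      (Poly.fst (Poly.snd Poly.id)) (NPC.Poly.const []))
  refine ⟨_, p, hS, fun y => ?_⟩
  simp only [unpair_pairBits]
  constructor
  · rintro ⟨x, hx, hy⟩
    obtain ⟨w, hw, hVw⟩ := (hL y).1 hy
    refine ⟨w, hw, ?_⟩
    rw [if_pos ((chk_iff y).2 ⟨x, hx⟩)]
    exact hVw
  · rintro ⟨w, hw, hVw⟩
    by_cases hc : chk y
    · rw [if_pos hc] at hVw
      obtain ⟨x, hx⟩ := (chk_iff y).1 hc
      exact ⟨x, hx, (hL y).2 ⟨w, hw, hVw⟩⟩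
    · rw [if_neg hc] at hVw
      exact absurd hVw (by simp)

theorem spr_sparse (A : Oracle) : Sparse (spr A) := by
  refine ⟨Polynomial.X, fun n => ?_⟩
  rw [Polynomial.eval_X]
  by_cases h : ∃ m, mm m = n
  · obtain ⟨m, rfl⟩ := h
    have hinj : ∀ k, mm k = mm m → k = m := by
      intro k hk
      have hmono : StrictMono mm := by
        refine strictMono_nat_of_lt_succ fun i => ?_
        unfold mm
        have : 2 ^ (4 * (i + 1)) ≤ 2 ^ (4 * (i + 1 + 1)) :=
          Nat.pow_le_pow_right (by norm_num) (by omega)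
        omega
      exact hmono.injective hk
    have hsub : {x : List Bool | x ∈ spr A ∧ x.length = mm m} ⊆
        padq q4 '' {x : List Bool | x.length = m} := by
      rintro y ⟨⟨x, rfl, -⟩, hl⟩
      rw [E0.length_padq4] at hl
      exact ⟨x, hinj _ hl, rfl⟩
    have hfin : {x : List Bool | x.length = m}.Finite := List.finite_length_eq Bool m
    have hcard : Set.ncard {x : List Bool | x.length = m} = 2 ^ m := by
      have h1 : Set.ncard {x : List Bool | x.length = m} = Nat.card (List.Vector Bool m) := rfl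
      rw [h1, Nat.card_eq_fintype_card, card_vector, Fintype.card_bool]
    refine (Set.ncard_le_ncard hsub (hfin.image _)).trans ((Set.ncard_image_le hfin).trans ?_)
    rw [hcard]
    unfold mm
    have : 2 ^ m ≤ 2 ^ (4 * (m + 1)) := Nat.pow_le_pow_right (by norm_num) (by omega)
    omega
  · have : {x : List Bool | x ∈ spr A ∧ x.length = n} = ∅ := by
      rw [Set.eq_empty_iff_forall_notMem]
      rintro y ⟨⟨x, rfl, -⟩, hl⟩
      rw [E0.length_padq4] at hl
      exact h ⟨_, hl⟩
    rw [this, Set.ncard_empty]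
    exact Nat.zero_le _

/-- If the sparse sets in `NP` are closed under complement, then the test language of `NE` has its
complement in `NE`. -/
theorem hit2_of_sparse {A : Oracle} (h : ∀ L, Sparse L → IsNP A L → IsNP A Lᶜ) :
    InNTime Lin A (hit2 A)ᶜ := by
  have h1 := IsNP.pad good_Lin (h _ (spr_sparse A) (spr_np A)) (q := q4) ⟨4, rfl⟩
  have h2 : {x | padq q4 x ∈ (spr A)ᶜ} = (hit2 A)ᶜ := by
    ext x
    simp only [Set.mem_ofPred_eq, Set.mem_compl_iff, spr, hit2, not_iff_not]
    exact ⟨fun ⟨_, _, h⟩ => h, fun h => ⟨x, rfl, h⟩⟩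
  rwa [h2] at h1

/-- the oracles relative to which the complements of the sparse sets in `NP` are in `NP` -/
theorem null_sparse {g : ℕ → ℝ}
    (hg : ∀ ε : ℝ, 0 < ε → ∃ᶠ N : ℕ in atTop, g N ≤ ε * Real.logb 2 (Real.logb 2 N)) :
    Null g {A : Oracle | ∀ L, Sparse L → IsNP A L → IsNP A Lᶜ} :=
  (nullC good_Lin (Pool.Agent.H249R3.Gau.asyNE hg)).mono fun _ hA => hit2_of_sparse hA

/-- `NE` closed under complement with linear advice-free verification fails just as often -/
theorem null_ne {g : ℕ → ℝ}
    (hg : ∀ ε : ℝ, 0 < ε → ∃ᶠ N : ℕ in atTop, g N ≤ ε * Real.logb 2 (Real.logb 2 N)) :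
    Null g {A : Oracle | InNTime Lin A (hit2 A)ᶜ} :=
  nullC good_Lin (Pool.Agent.H249R3.Gau.asyNE hg)

/-- `NEXP = coNEXP` -/
theorem mainX (f : ℕ → ℝ) (O : Set Oracle)
    (h1 : ∀ A : Oracle, (∀ L, InNTime Pol A L ↔ InNTime Pol A Lᶜ) →
      (∃ L, Sparse L ∧ IsNP A L ∧ ¬ IsNP A Lᶜ) →
      ¬ InNTime Lin A (hit2 A)ᶜ →
      (∃ L, InNTime Pol A L ∧ ¬ InTime Pol A L) →
      (∃ L, IsNP A L ∧ ¬ WithAdvice (IsNP A) Lᶜ) → A ∈ O)
    (h2 : ∀ A ∈ O, ∀ L, InNTime Pol A L → InNTime Pol A Lᶜ) :
    Null f O ↔ ∀ ε : ℝ, 0 < ε → ∃ᶠ N : ℕ in atTop,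
      f N ≤ (Real.logb 2 (Real.logb 2 N)) ^ ε := by
  constructor
  · intro hn
    by_contra hcon
    push Not at hcon
    obtain ⟨ε, hε, hcon⟩ := hcon
    set ε₁ : ℝ := min ε (1 / 2) with hε₁
    have hε₁0 : 0 < ε₁ := lt_min hε (by norm_num)
    set F : ℕ → ℝ := fun N => (Real.logb 2 (Real.logb 2 N)) ^ ε₁ with hF
    set g : ℕ → ℝ := fun N => min (f N) (F N) with hg
    have hgO : Null g O := H529R3.Lev.null_anti (fun N => min_le_left _ _) hn
    have hgF : ∀ᶠ N : ℕ in atTop, F N ≤ Real.logb 2 (Real.logb 2 N) := by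
      filter_upwards [H529R3.Gap.tendsto_loglog.eventually_ge_atTop 1] with N h
      calc F N ≤ (Real.logb 2 (Real.logb 2 N)) ^ (1 : ℝ) :=
            Real.rpow_le_rpow_of_exponent_le h ((min_le_right _ _).trans (by norm_num))
        _ = _ := Real.rpow_one _
    have hA : Null g {A : Oracle | InNTime Lin A (hit2 A)ᶜ} := by
      refine null_ne fun ε' hε' => ?_
      apply Eventually.frequently
      filter_upwards [H529R3.Gap.tendsto_loglog.eventually
        (H529R3.Gap.rpow_le_mul (show ε₁ < 1 from (min_le_right _ _).trans_lt (by norm_num)) hε')]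
        with N h3
      exact (min_le_right _ _).trans h3
    have hB : Null g {A : Oracle | ∀ L, InTime Pol A L ↔ InNTime Pol A L} := by
      refine (resE g).2.2.2 fun ε' hε' => ?_
      apply Eventually.frequently
      filter_upwards [loglog_le_pow hε', hgF] with N h3 h4
      exact (min_le_right _ _).trans (h4.trans h3)
    have hC : Null g {A : Oracle | ∀ L, IsNP A L → WithAdvice (IsNP A) Lᶜ} := by
      refine nullN (f := g) (fun ε' hε' => ?_) _ fun A hA => hA _ (hitLang_np A)
      apply Eventually.frequently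
      filter_upwards [H529R3.Gap.tendsto_log.eventually
        (H529R3.Gap.rpow_le_two (ε := 1) one_pos hε'), loglog_le (ε := 1) one_pos, hgF]
        with N h3 h4 h5
      exact (min_le_right _ _).trans (h5.trans (h4.trans h3))
    have hU := (null_union hgO (null_union hA (null_union hB hC)))
    have hX : Null g {A : Oracle | ∀ L, InNTime Pol A L ↔ InNTime Pol A Lᶜ} := by
      refine hU.mono fun A hX => ?_
      by_cases k1 : InNTime Lin A (hit2 A)ᶜ
      · exact Or.inr (Or.inl k1)
      by_cases k2 : ∀ L, InTime Pol A L ↔ InNTime Pol A L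
      · exact Or.inr (Or.inr (Or.inl k2))
      by_cases k3 : ∀ L, IsNP A L → WithAdvice (IsNP A) Lᶜ
      · exact Or.inr (Or.inr (Or.inr k3))
      refine Or.inl (h1 A hX ?_ k1 ?_ ?_)
      · by_contra hs
        push Not at hs
        exact k1 (hit2_of_sparse hs)
      · by_contra hs
        push Not at hs
        exact k2 fun L => ⟨fun h => h.isNTime, hs L⟩
      · push Not at k3
        exact k3
    have h5 := (resNEXP g).1.1 hX (ε₁ / 2) (half_pos hε₁0)
    apply h5
    filter_upwards [hcon, H529R3.Gap.tendsto_loglog.eventually_gt_atTop 1] with N h6 h7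
    rw [not_le, hg]
    have h8 : (Real.logb 2 (Real.logb 2 N)) ^ (ε₁ / 2) < F N :=
      Real.rpow_lt_rpow_of_exponent_lt h7 (by linarith)
    have h9 : F N ≤ (Real.logb 2 (Real.logb 2 N)) ^ ε :=
      Real.rpow_le_rpow_of_exponent_le h7.le (min_le_left _ _)
    exact lt_min (h8.trans_le (h9.trans h6.le)) h8
  · intro hf
    refine ((resNEXP f).1.2 hf).mono fun A hA L => ⟨fun h => h2 A hA L h, fun h => ?_⟩
    have := h2 A hA _ h
    rwa [compl_compl] at this

end Pool.Agent.TH93.NX
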